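import Pool.Agent.H54.TDom4

namespace Pool.Agent.Results.MP_0479e2_co.Bound

open Pool.Agent.H54.TDom

theorem result (V : Type) [Fintype V] (G : SimpleGraph V) (hb : G.IsBipartite)
    (hi : ∀ v, ∃ u, G.Adj v u) (ho : Odd (gammaT G)) (h3 : 3 ≤ gammaT G) :
    G.edgeSet.ncard ≤ ((Fintype.card V - gammaT G) * (Fintype.card V - gammaT G + 4)
      + 2 * gammaT G - 2) / 4 :=
  q1 G hb hi ho h3

end Pool.Agent.Results.MP_0479e2_co.Bound
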