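import Pool.Agent.H54.TDom4

namespace Pool.Agent.Results.MP_0479e2_co.Extremal

open Pool.Agent.H54.TDom

theorem result :
    (∀ x j : ℕ, 5 ≤ x → (Ext x j).IsBipartite ∧ (∀ v, ∃ u, (Ext x j).Adj v u) ∧
      Fintype.card (EV x j) = x + 2 * j ∧ gammaT (Ext x j) = 2 * j + 3 ∧
      (Ext x j).edgeSet.ncard = bound (x + 2 * j) (2 * j + 3)) ∧
    ∃ H : SimpleGraph (Fin 6), H.IsBipartite ∧ (∀ v, ∃ u, H.Adj v u) ∧ gammaT H = 3 ∧
      H.edgeSet.ncard = bound 6 3 ∧ IsEmpty (H ≃g Ext 6 0) :=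
  ⟨fun x j hx => ⟨(ext_bw x j).isBipartite, (ext_gamma x j hx).1, ext_card x j (by omega),
    (ext_gamma x j hx).2, ext_bound x j hx⟩, H6, h6⟩

end Pool.Agent.Results.MP_0479e2_co.Extremal
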